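import Mathlib

open Set Metric Filter Topology Complex
open scoped ComplexConjugate NNReal

namespace Pool.Agent.H.MP_b3426d_an

abbrev V := ℂ × ℂ

noncomputable def Lv (u : V → ℝ) (p w : V) : ℝ :=
  fderiv ℝ (fderiv ℝ u) p w w + fderiv ℝ (fderiv ℝ u) p (I • w) (I • w)

lemma RM {f : ℂ → ℂ} {c : ℂ} {r C : ℝ} (r0 : 0 < r) (hf : DiffContOnCl ℂ f (ball c r))
    (h : ∀ z ∈ sphere c r, (f z).re ≤ C) : ∀ z ∈ closedBall c r, (f z).re ≤ C := fun z hz => by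
  have := norm_le_of_forall_mem_frontier_norm_le isBounded_ball (differentiable_exp.comp_diffContOnCl hf)
    (C := Real.exp C) (fun z hz => by
      rw [frontier_ball _ r0.ne'] at hz; simpa [norm_exp] using h z hz) (by rwa [closure_ball _ r0.ne'])
  simpa [norm_exp] using this

lemma RM' {f : ℂ → ℂ} {c : ℂ} {k : ℝ} (k0 : 0 < k) (hf : ∀ᶠ z in 𝓝 c, DifferentiableAt ℂ f z)
    (h : ∀ᶠ z in 𝓝 c, (f z).re + k * ‖z - c‖ ^ 2 ≤ (f c).re) : False := by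
  obtain ⟨r, r0, hr⟩ := nhds_basis_closedBall.eventually_iff.1 (hf.and h)
  have := RM (C := (f c).re - k * r ^ 2) r0 (DifferentiableOn.diffContOnCl (by
    rw [closure_ball _ r0.ne']; exact fun z hz => (hr hz).1.differentiableWithinAt)) (fun z hz => by
      have := (hr (sphere_subset_closedBall hz)).2
      rw [mem_sphere_iff_norm.1 hz] at this
      linarith) c (mem_closedBall_self r0.le)
  linarith [mul_pos k0 (pow_pos r0 2)]

lemma T2 {u : V → ℝ} {p : V} (hu : ContDiffAt ℝ 2 u p) {η : ℝ} (η0 : 0 < η) : ∀ᶠ x in 𝓝 (0 : V),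
    |u (p + x) - u p - fderiv ℝ u p x - fderiv ℝ (fderiv ℝ u) p x x / 2| ≤ η * ‖x‖ ^ 2 := by
  have a := (hasFDerivAt_iff_isLittleO_nhds_zero.1
    ((hu.fderiv_right (m := 1) (by norm_num)).differentiableAt one_ne_zero).hasFDerivAt).def η0
  have b := (Continuous.tendsto' (f := fun x => p + x) (by fun_prop) 0 p (by simp)).eventually (hu.eventually (by simp))
  obtain ⟨r, r0, hr⟩ := nhds_basis_ball.eventually_iff.1 (a.and b)
  filter_upwards [ball_mem_nhds 0 r0] with x hx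
  have n {t : ℝ} (ht : t ∈ Icc (0 : ℝ) 1) : ‖t • x‖ ≤ ‖x‖ := by
    rw [norm_smul, Real.norm_of_nonneg ht.1]; exact mul_le_of_le_one_left (norm_nonneg _) ht.2
  have m {t : ℝ} (ht : t ∈ Icc (0 : ℝ) 1) := hr (mem_ball_zero_iff.2 ((n ht).trans_lt (mem_ball_zero_iff.1 hx)))
  have := norm_image_sub_le_of_norm_deriv_le_segment_01' (C := η * ‖x‖ ^ 2)
    (f := fun t : ℝ => u (p + t • x) - t * fderiv ℝ u p x - t ^ 2 * (fderiv ℝ (fderiv ℝ u) p x x / 2))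
    (f' := fun t => (fderiv ℝ u (p + t • x) - fderiv ℝ u p - fderiv ℝ (fderiv ℝ u) p (t • x)) x) (fun t ht => by
      have l : HasDerivAt (fun t : ℝ => p + t • x) x t := by simpa using ((hasDerivAt_id t).smul_const x).const_add p
      refine ((((((m ht).2.differentiableAt (by simp)).hasFDerivAt.comp_hasDerivAt t l).sub
        (hasDerivAt_mul_const _)).sub ((hasDerivAt_pow 2 t).mul_const _)).congr_deriv ?_).hasDerivWithinAt
      simp; ring) fun t ht => by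
    refine (ContinuousLinearMap.le_opNorm _ _).trans ?_
    rw [sq, ← mul_assoc]
    gcongr
    exact (m (Ico_subset_Icc_self ht)).1.trans (by gcongr; exact n (Ico_subset_Icc_self ht))
  simp only [one_smul, zero_smul, add_zero, Real.norm_eq_abs] at this
  refine le_of_eq_of_le ?_ this
  congr 1
  ring

lemma dec (z : ℂ) (w : V) : z • w = z.re • w + z.im • I • w := by
  rw [← coe_smul, ← coe_smul, smul_smul, ← add_smul, re_add_im]

lemma lin (D : V →L[ℝ] ℝ) (z : ℂ) (w : V) : D (z • w) = (z * (D w - D (I • w) * I)).re := by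
  rw [dec]; simp

lemma quad (B : V →L[ℝ] V →L[ℝ] ℝ) (z y : ℂ) (w v : V) : B (z • w) (y • v) - B (I • z • w) (I • y • v) =
    (z * y * (B w v - B (I • w) (I • v) - (B w (I • v) + B (I • w) v) * I)).re := by
  rw [smul_smul, smul_smul, dec z, dec y, dec (I * z), dec (I * y)]; simp; ring

lemma Lvs (u : V → ℝ) (p w : V) (z : ℂ) : Lv u p (z • w) = ‖z‖ ^ 2 * Lv u p w := by
  rw [Lv, Lv, smul_smul, dec z, dec (I * z), Complex.sq_norm, normSq_apply]; simp; ring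

lemma LV {u : V → ℝ} {p : V} (hu : ContDiffAt ℝ 2 u p) : ∃ Q : V → ℂ, Differentiable ℂ Q ∧ (Q 0).re = u p ∧
    ∀ η > (0 : ℝ), ∀ᶠ x in 𝓝 (0 : V), |u (p + x) - (Q x).re - Lv u p x / 4| ≤ η * ‖x‖ ^ 2 := by
  choose l hl using fun w : V => (⟨_, fun z => lin (fderiv ℝ u p) z w⟩ : 
    ∃ l : ℂ, ∀ z : ℂ, fderiv ℝ u p (z • w) = (z * l).re)
  choose β hβ using fun w v : V => (⟨_, fun z y => quad (fderiv ℝ (fderiv ℝ u) p) z y w v⟩ :
    ∃ l : ℂ, ∀ z y : ℂ, fderiv ℝ (fderiv ℝ u) p (z • w) (y • v) -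
      fderiv ℝ (fderiv ℝ u) p (I • z • w) (I • y • v) = (z * y * l).re)
  refine ⟨fun x => u p + (x.1 * l (1, 0) + x.2 * l (0, 1)) + (x.1 * x.1 * β (1, 0) (1, 0) + x.1 * x.2 * β (1, 0) (0, 1) +
    x.2 * x.1 * β (0, 1) (1, 0) + x.2 * x.2 * β (0, 1) (0, 1)) / (4 : ℝ), by fun_prop, by simp, fun η η0 =>
      (T2 hu η0).mono fun x hx => le_of_eq_of_le ?_ hx⟩
  have e : x = x.1 • (1, 0) + x.2 • (0, 1) := by simp
  simp only [add_re, div_ofReal_re, ← hl, ← hβ, ofReal_re, Lv]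
  generalize x.1 • ((1, 0) : V) = a at *
  generalize x.2 • ((0, 1) : V) = b at *
  simp only [e, smul_add, map_add, add_apply]
  congr 1
  ring

def Sub (u : V → ℝ) (p : V) : Prop := ∀ η > (0 : ℝ), ∃ Q : V → ℂ, Differentiable ℂ Q ∧ (Q 0).re = u p ∧
  ∀ᶠ x in 𝓝 (0 : V), (Q x).re - η * ‖x‖ ^ 2 ≤ u (p + x)

def Deg (u : V → ℝ) (p : V) : Prop := ∃ w ≠ (0 : V), ∀ η > (0 : ℝ), ∃ q : ℂ → ℂ, Differentiable ℂ q ∧ (q 0).re = u p ∧
  ∀ᶠ z in 𝓝 (0 : ℂ), u (p + z • w) ≤ (q z).re + η * ‖z‖ ^ 2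

def LP (v : V → EReal) (p : V) : Prop := ∀ (w : V) (q : ℂ → ℂ) (k : ℝ), 0 < k → Differentiable ℂ q →
  (∀ᶠ z in 𝓝 (0 : ℂ), v (p + z • w) ≤ ((q z).re - k * ‖z‖ ^ 2 : ℝ)) → v p ≠ (q 0).re

lemma tz (w : V) : Tendsto (fun z : ℂ => z • w) (𝓝 0) (𝓝 0) := Continuous.tendsto' (by fun_prop) _ _ (by simp)

lemma sub {u : V → ℝ} {p : V} (hu : ContDiffAt ℝ 2 u p) (h : ∀ w, 0 ≤ Lv u p w) : Sub u p := fun η η0 =>
  let ⟨Q, d, e, k⟩ := LV hu
  ⟨Q, d, e, (k η η0).mono fun x hx => by linarith [(abs_le.1 hx).1, h x]⟩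

lemma up {u : V → ℝ} {p : V} (hu : ContDiffAt ℝ 2 u p) (w : V) : ∃ q : ℂ → ℂ, Differentiable ℂ q ∧ (q 0).re = u p ∧
    ∀ η > (0 : ℝ), ∀ᶠ z in 𝓝 (0 : ℂ), u (p + z • w) ≤ (q z).re + (Lv u p w / 4 + η) * ‖z‖ ^ 2 := by
  obtain ⟨Q, d, e, k⟩ := LV hu
  refine ⟨fun z => Q (z • w), by fun_prop, by simpa, fun η η0 =>
    ((tz w).eventually (k (η / (‖w‖ ^ 2 + 1)) (by positivity))).mono fun z hz => ?_⟩
  have a := (abs_le.1 hz).2
  have b : η / (‖w‖ ^ 2 + 1) * ‖w‖ ^ 2 ≤ η := by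
    rw [div_mul_eq_mul_div, div_le_iff₀ (by positivity)]; linarith
  rw [Lvs, norm_smul] at a
  nlinarith [mul_le_mul_of_nonneg_right b (sq_nonneg ‖z‖)]

lemma deg {u : V → ℝ} {p w : V} (hu : ContDiffAt ℝ 2 u p) (w0 : w ≠ 0) (h : Lv u p w ≤ 0) : Deg u p :=
  let ⟨q, d, e, k⟩ := up hu w
  ⟨w, w0, fun η η0 => ⟨q, d, e, (k η η0).mono fun z hz => by nlinarith [sq_nonneg ‖z‖]⟩⟩

lemma lvn {u : V → ℝ} {p : V} (hu : ContDiffAt ℝ 2 u p) (h : LP (fun x => u x) p) (w : V) : 0 ≤ Lv u p w := by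
  by_contra! c
  obtain ⟨q, d, e, k⟩ := up hu w
  exact h w q (-Lv u p w / 8) (by linarith) d ((k (-Lv u p w / 8) (by linarith)).mono fun z hz =>
    EReal.coe_le_coe (by linarith)) (by rw [e])

lemma W {X : Type} [TopologicalSpace X] {K : Set X} (hK : IsCompact K) {v : X → EReal} {u N : X → ℝ}
    (hv : UpperSemicontinuousOn v K) (top : ∀ x ∈ K, v x ≠ ⊤) (hu : ContinuousOn u K) (hN : ContinuousOn N K)
    (h : ∀ δ > (0 : ℝ), ∀ q ∈ K, ∀ m : ℝ, v q = m → u q < m →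
      ¬ ∀ x ∈ K, v x ≤ (u x - δ * N x + (m - u q + δ * N q) : ℝ)) : ∀ x ∈ K, v x ≤ u x := fun p hp => by
  by_contra! c
  obtain ⟨B, hB⟩ := hK.exists_bound_of_continuousOn hN
  obtain ⟨s, hs⟩ : ∃ s : ℝ, v p = s := ⟨_, (EReal.coe_toReal (top p hp) c.ne_bot).symm⟩
  rw [hs, EReal.coe_lt_coe_iff, ← sub_pos] at c
  have B0 := (norm_nonneg _).trans (hB p hp)
  obtain ⟨δ, d0, hδ⟩ : ∃ δ > 0, δ * (2 * B + 1) = s - u p := ⟨_, by positivity, div_mul_cancel₀ _ (by positivity)⟩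
  obtain ⟨q, hq, m⟩ := (hv.add' (continuous_coe_real_ereal.comp_continuousOn
    ((hN.const_mul δ).sub hu)).upperSemicontinuousOn fun x _ => EReal.continuousAt_add
      (.inr (EReal.coe_ne_bot _)) (.inr (EReal.coe_ne_top _))).exists_isMaxOn
    ⟨p, hp⟩ hK
  have m' (x) (hx : x ∈ K) : v x + (δ * N x - u x : ℝ) ≤ v q + (δ * N q - u q : ℝ) := m hx
  have a := m' p hp
  obtain ⟨t, ht⟩ : ∃ s : ℝ, v q = s := ⟨_, (EReal.coe_toReal (top q hq) fun e => by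
    rw [e, hs, EReal.bot_add] at a; exact EReal.coe_ne_bot _ (le_bot_iff.1 a)).symm⟩
  rw [hs, ht, ← EReal.coe_add, ← EReal.coe_add, EReal.coe_le_coe_iff] at a
  refine h δ d0 q hq t ht (by nlinarith [(abs_le.1 (hB p hp)).1, (abs_le.1 (hB q hq)).2]) fun x hx => ?_
  have := m' x hx
  rw [ht, ← EReal.coe_add] at this
  generalize v x = y at this
  induction y with
  | bot => exact bot_le
  | top => rw [EReal.top_add_coe] at this; exact absurd (top_le_iff.1 this) (EReal.coe_ne_top _)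
  | coe y => exact EReal.coe_le_coe (by linarith [EReal.coe_le_coe_iff.1 this])

lemma nsq (a b : ℂ) : ‖a + b‖ ^ 2 = ‖a‖ ^ 2 + 2 * (conj a * b).re + ‖b‖ ^ 2 := by
  simp [Complex.sq_norm, normSq_apply]; ring

lemma CP {K : Set V} (hK : IsCompact K) {v : V → EReal} {u : V → ℝ} (hv : UpperSemicontinuousOn v K)
    (top : ∀ x ∈ K, v x ≠ ⊤) (hu : ContinuousOn u K) (h : ∀ x ∈ K, u x < v x → K ∈ 𝓝 x ∧ Deg u x ∧ LP v x) :
    ∀ x ∈ K, v x ≤ u x := by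
  refine W (N := fun x => ‖x.1‖ ^ 2 + ‖x.2‖ ^ 2) hK hv top hu (by fun_prop) fun δ d0 p hp m hm c k => ?_
  obtain ⟨n, ⟨w, w0, hw⟩, l⟩ := h p hp (hm ▸ EReal.coe_lt_coe c)
  have N0 : 0 < ‖w.1‖ ^ 2 + ‖w.2‖ ^ 2 := by
    by_contra! e
    exact w0 (Prod.ext (norm_eq_zero.1 (by nlinarith [sq_nonneg ‖w.2‖])) (norm_eq_zero.1 (by nlinarith [sq_nonneg ‖w.1‖])))
  obtain ⟨q, d, e, hq⟩ := hw _ (half_pos (mul_pos d0 N0))
  refine l w (fun z => q z + (m - u p : ℝ) - (2 * δ : ℝ) * (conj p.1 * (z * w.1) + conj p.2 * (z * w.2))) _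
    (half_pos (mul_pos d0 N0)) (by fun_prop) ?_ (by simp [hm, e])
  filter_upwards [hq, (Continuous.tendsto' (f := fun z : ℂ => p + z • w) (by fun_prop) 0 p (by simp)).eventually n]
    with z a b
  refine (k _ b).trans (EReal.coe_le_coe ?_)
  simp only [Prod.fst_add, Prod.snd_add, nsq, Prod.smul_fst, Prod.smul_snd, smul_eq_mul, norm_mul, sub_re, add_re,
    ofReal_re, re_ofReal_mul]
  linarith

lemma SM {u : V → ℝ} {γ : ℂ → V} {k : ℂ → ℂ} (hγ : DifferentiableOn ℂ γ (ball 0 1))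
    (cu : ContinuousOn (fun z => u (γ z)) (closedBall 0 1)) (hu : ∀ z ∈ ball (0 : ℂ) 1, Sub u (γ z))
    (hk : DiffContOnCl ℂ k (ball 0 1)) (h : ∀ z ∈ sphere 0 1, u (γ z) ≤ (k z).re) :
    ∀ z ∈ closedBall 0 1, u (γ z) ≤ (k z).re := fun z hz => by
  refine EReal.coe_le_coe_iff.1 (W (N := fun z => ‖z‖ ^ 2) (u := fun z => (k z).re) (isCompact_closedBall 0 1)
    (continuous_coe_real_ereal.comp_continuousOn cu).upperSemicontinuousOn (by simp)
    (continuous_re.comp_continuousOn hk.continuousOn_ball) (by fun_prop) (fun δ d0 p hp m hm c t => ?_) z hz)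
  obtain rfl := EReal.coe_injective hm
  have b : p ∈ ball 0 1 := by
    by_contra e
    exact (h p (by rw [← closedBall_sdiff_ball]; exact ⟨hp, e⟩)).not_gt c
  have n := isOpen_ball.mem_nhds b
  obtain ⟨C, C0, hC⟩ := (hγ.differentiableAt n).isBigO_sub.exists_pos
  obtain ⟨Q, d, e, hQ⟩ := hu p b (δ / 2 / C ^ 2) (by positivity)
  refine RM' (f := fun z => Q (γ z - γ p) - k z + (2 * δ : ℝ) * (conj p * (z - p))) (c := p) (half_pos d0) ?_ ?_
  · filter_upwards [hγ.eventually_differentiableAt n, hk.1.eventually_differentiableAt n] with z a b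
    fun_prop
  filter_upwards [hC.bound, n, (tendsto_sub_nhds_zero_iff.2 (hγ.differentiableAt n).continuousAt).eventually hQ]
    with z a b c
  have := EReal.coe_le_coe_iff.1 (t z (ball_subset_closedBall b))
  have f := nsq p (z - p)
  have g : δ / 2 / C ^ 2 * ‖γ z - γ p‖ ^ 2 ≤ δ / 2 * ‖z - p‖ ^ 2 :=
    (mul_le_mul_of_nonneg_left (pow_le_pow_left₀ (norm_nonneg _) a 2) (by positivity)).trans_eq (by field_simp)
  simp only [add_sub_cancel, sub_re, add_re, re_ofReal_mul, sub_self, mul_zero, zero_re, e] at c f ⊢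
  rw [f] at this
  linarith

end Pool.Agent.H.MP_b3426d_an
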