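import Mathlib

open Set Metric Filter Topology MeasureTheory Complex AddCircle
open scoped Real ComplexConjugate NNReal

namespace Pool.Agent.H.MP_b3426d_an

instance f1 : Fact ((0 : ℝ) < 1) := ⟨one_pos⟩

abbrev C := AddCircle (1 : ℝ)
noncomputable abbrev μ : Measure C := haarAddCircle
noncomputable abbrev L := Lp ℂ 2 μ

noncomputable def c (F : L) (n : ℤ) : ℂ := fourierBasis.repr F n

lemma pars (F : L) : HasSum (fun n => ‖c F n‖ ^ 2) (‖F‖ ^ 2) := by
  rw [← fourierBasis.repr.norm_map F]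
  apply_mod_cast lp.hasSum_norm ?_ (fourierBasis.repr F)
  simp

lemma csub (F G : L) (n : ℤ) : c (F - G) n = c F n - c G n := by simp [c]

noncomputable def τ (t : ℝ) (F : L) : L := Lp.compMeasurePreserving (· + (t : C)) (measurePreserving_add_right μ _) F

lemma cτ (t : ℝ) (F : L) (n : ℤ) : c (τ t F) n = fourier n (t : C) * c F n := by
  simp only [c, fourierBasis_repr, τ]
  rw [fourierCoeff_congr_ae (Lp.coeFn_compMeasurePreserving _ _), fourierCoeff, fourierCoeff,
    ← integral_add_right_eq_self (fun x => fourier (-n) x • F x) (t : C), ← integral_const_mul]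
  congr 1
  ext (x : C)
  have : (fourier n (t : C) : ℂ) * fourier (-n) (x + (t : C)) = fourier (-n) x := by
    simp only [fourier_apply, smul_add, toCircle_add, neg_smul, toCircle_neg, Circle.coe_mul, Circle.coe_inv]
    field_simp
  simp only [smul_eq_mul, ← mul_assoc, this, Function.comp]

noncomputable def P : L →L[ℂ] L := (Submodule.span ℂ ((fourierBasis : ℤ → L) '' Iic 0))ᗮ.starProjection

lemma cP (F : L) (n : ℤ) : c (P F) n = if 0 < n then c F n else 0 := by
  simp only [c, HilbertBasis.repr_apply_apply]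
  split_ifs with h
  · rw [eq_comm, ← sub_eq_zero, ← inner_sub_right, inner_eq_zero_symm]
    refine Submodule.starProjection_inner_eq_zero _ _ ((Submodule.mem_orthogonal _ _).2 fun u hu => ?_)
    induction hu using Submodule.span_induction with
    | mem x hx =>
      obtain ⟨m, hm, rfl⟩ := hx
      exact fourierBasis.orthonormal.2 (by rintro rfl; exact h.not_ge hm)
    | zero => simp
    | add x y _ _ a b => rw [inner_add_left, a, b, add_zero]
    | smul a x _ b => rw [inner_smul_left, b, mul_zero]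
  · exact (Submodule.mem_orthogonal _ _).1 (Submodule.starProjection_apply_mem _ F) _
      (Submodule.subset_span ⟨n, not_lt.1 h, rfl⟩)

lemma nP (F : L) : ‖P F‖ ≤ ‖F‖ := Submodule.norm_starProjection_apply_le _ F

lemma τP (t : ℝ) (F : L) : τ t (P F) = P (τ t F) :=
  fourierBasis.repr.injective (lp.ext (funext fun n => show c _ n = c _ n by
    simp only [cτ, cP]; split_ifs <;> simp))

noncomputable def S : ℝ := ∑' n : ℤ, 1 / (n : ℝ) ^ 2

lemma good {F : L} {M : ℝ} (M0 : 0 < M) (h : ∀ t, ‖τ t F - F‖ ≤ M * |t|) :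
    Summable (fun n => ‖c F n‖) ∧ ∑' n : ℕ, ‖c F (n + 1)‖ ≤ M * (S + 1) := by
  have k (s : Finset ℤ) : ∑ n ∈ s, (n * ‖c F n‖) ^ 2 ≤ M ^ 2 := by
    have d (n : ℤ) : Tendsto (fun t : ℝ => (‖t⁻¹ • (fourier n ((0 + t : ℝ) : C) - fourier n ((0 : ℝ) : C))‖ * ‖c F n‖) ^ 2)
        (𝓝[≠] 0) (𝓝 ((‖2 * π * I * n / (1 : ℝ) * fourier n ((0 : ℝ) : C)‖ * ‖c F n‖) ^ 2)) :=
      ((hasDerivAt_fourier 1 n 0).tendsto_slope_zero.norm.mul_const _).pow 2
    refine le_trans (Finset.sum_le_sum fun n _ => ?_) (le_of_tendsto (tendsto_finsetSum s fun n _ => d n) ?_)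
    · rw [← sq_abs, abs_mul, abs_norm]
      gcongr
      simp only [ofReal_one, div_one, norm_mul, coe_zero, fourier_eval_zero, norm_one, norm_I, norm_intCast,
        norm_real, Complex.norm_two, Real.norm_of_nonneg Real.pi_pos.le]
      nlinarith [Real.pi_gt_three, abs_nonneg (n : ℝ)]
    filter_upwards [self_mem_nhdsWithin] with t ht
    have a := sum_le_hasSum s (fun _ _ => by positivity) (pars (τ t F - F))
    have p : 0 < |t| := abs_pos.2 ht
    calc _ = (∑ n ∈ s, ‖c (τ t F - F) n‖ ^ 2) / |t| ^ 2 := by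
          rw [Finset.sum_div]
          refine Finset.sum_congr rfl fun n _ => ?_
          rw [csub, cτ, ← sub_one_mul, norm_mul, norm_smul, norm_inv, zero_add, coe_zero, fourier_eval_zero,
            Real.norm_eq_abs]
          ring
      _ ≤ (M * |t|) ^ 2 / |t| ^ 2 := by gcongr; exact a.trans (by gcongr; exact h t)
      _ = _ := by field_simp
  have s1 := summable_of_sum_le (fun _ => by positivity) k
  have s2 := Real.summable_one_div_int_pow.2 one_lt_two
  have s3 := (s2.mul_left M).add (s1.div_const M)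
  have b (n : ℤ) (h : n ≠ 0) : ‖c F n‖ ≤ M * (1 / (n : ℝ) ^ 2) + (n * ‖c F n‖) ^ 2 / M := by
    have : (0 : ℝ) < n ^ 2 := by positivity
    rw [← sub_nonneg, show M * (1 / (n : ℝ) ^ 2) + (n * ‖c F n‖) ^ 2 / M - ‖c F n‖ =
      ((M - n ^ 2 * ‖c F n‖) ^ 2 + M * n ^ 2 * ‖c F n‖) / (M * n ^ 2) by field_simp; ring]
    positivity
  have s4 : Summable fun n => ‖c F n‖ := s3.of_norm_bounded_eventually
    ((eventually_cofinite_ne 0).mono fun n hn => by simpa using b n hn)
  have i : Function.Injective fun n : ℕ => (n + 1 : ℤ) := fun a b h => by simpa using h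
  refine ⟨s4, ((s4.comp_injective i).tsum_le_tsum_of_inj _ i (fun _ _ => by positivity)
    (fun n => b _ (show (n + 1 : ℤ) ≠ 0 by omega)) s3).trans ?_⟩
  rw [(s2.mul_left M).tsum_add (s1.div_const M), tsum_mul_left, tsum_div_const, mul_add, mul_one]
  gcongr
  · rfl
  · rw [div_le_iff₀ M0, ← sq]; exact s1.tsum_le_of_sum_le k

noncomputable def ser (a : ℕ → ℂ) (z : ℂ) : ℂ := ∑' n, a n * z ^ n

lemma sb (a : ℕ → ℂ) {z : ℂ} (hz : z ∈ closedBall (0 : ℂ) 1) (n : ℕ) : ‖a n * z ^ n‖ ≤ ‖a n‖ := by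
  rw [norm_mul, norm_pow]
  exact mul_le_of_le_one_right (norm_nonneg _) (pow_le_one₀ (norm_nonneg _) (mem_closedBall_zero_iff.1 hz))

lemma sd {a : ℕ → ℂ} (h : Summable fun n => ‖a n‖) : DiffContOnCl ℂ (ser a) (ball 0 1) :=
  ⟨differentiableOn_tsum_of_summable_norm h (fun _ => by fun_prop) isOpen_ball
    fun n _ hz => sb a (ball_subset_closedBall hz) n, by
    rw [closure_ball _ one_ne_zero]
    exact continuousOn_tsum (fun _ => by fun_prop) h fun n _ hz => sb a hz n⟩

noncomputable def ζ (x : C) : ℂ := fourier 1 x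

lemma ζc : Continuous ζ := (fourier 1).continuous

lemma ζs (x : C) : ζ x ∈ sphere (0 : ℂ) 1 := by simp [ζ]

lemma ζp (n : ℕ) (x : C) : fourier n x = ζ x ^ n := by simp [ζ, toCircle_nsmul]

lemma ζo {z : ℂ} (h : z ∈ sphere (0 : ℂ) 1) : ∃ x, ζ x = z := by
  refine ⟨(arg z / (2 * π) : ℝ), ?_⟩
  have := norm_mul_exp_arg_mul_I z
  rw [mem_sphere_zero_iff_norm.1 h, ofReal_one, one_mul] at this
  rw [ζ, fourier_coe_apply]
  refine .trans (congrArg _ ?_) this
  have := Real.pi_pos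
  push_cast; field_simp

lemma ζl (x : C) (t : ℝ) : ‖ζ (x + t) - ζ x‖ ≤ 7 * |t| := by
  have : ζ (x + t) = ζ x * exp (I * (2 * π * t : ℝ)) := by
    rw [ζ, ζ, fourier_one, toCircle_add, Circle.coe_mul, ← fourier_one, ← fourier_one, fourier_coe_apply]
    congr 2
    push_cast; ring
  rw [this, ← mul_sub_one, norm_mul, mem_sphere_zero_iff_norm.1 (ζs x), one_mul]
  refine Real.norm_exp_I_mul_ofReal_sub_one_le.trans ?_
  rw [Real.norm_eq_abs, abs_mul, abs_of_pos Real.two_pi_pos]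
  gcongr
  linarith [Real.pi_lt_d2]

noncomputable def pos (F : L) (z : ℂ) : ℂ := z * ser (fun n => c F (n + 1)) z
noncomputable def neg (F : L) : ℂ → ℂ := ser fun n => conj (c F (-n))

lemma split {F : L} (h : Summable fun n => ‖c F n‖) : DiffContOnCl ℂ (pos F) (ball 0 1) ∧
    DiffContOnCl ℂ (neg F) (ball 0 1) ∧ F =ᵐ[μ] fun x => pos F (ζ x) + conj (neg F (ζ x)) := by
  have s1 : Summable fun n : ℕ => ‖c F (n + 1)‖ := h.comp_injective fun a b h => by simpa using h
  have s2 : Summable fun n : ℕ => ‖conj (c F (-n))‖ := by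
    simp only [norm_conj]
    exact h.comp_injective (i := fun n : ℕ => (-n : ℤ)) fun a b h => by simpa using h
  refine ⟨differentiable_id.diffContOnCl.smul (sd s1), sd s2, ?_⟩
  have s : Summable fun n => c F n • (fourier n : C(C, ℂ)) := .of_norm (by simpa [norm_smul, fourier_norm] using h)
  have e : F = ContinuousMap.toLp 2 μ ℂ (∑' n, c F n • fourier n) :=
    (fourierBasis.hasSum_repr F).unique (by simpa [c] using (ContinuousMap.toLp (E := ℂ) 2 μ ℂ).hasSum s.hasSum)
  nth_rw 1 [e]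
  filter_upwards [ContinuousMap.coeFn_toLp (p := 2) (𝕜 := ℂ) μ (∑' n, c F n • fourier n)] with x hx
  have z := sphere_subset_closedBall (ζs x)
  have a := ((s1.of_norm_bounded (sb _ z)).hasSum.mul_left (ζ x))
  have b := (conjCLE : ℂ →L[ℝ] ℂ).hasSum (s2.of_norm_bounded (sb _ z)).hasSum
  rw [hx, add_comm]
  refine ((Equiv.neg ℤ).hasSum_iff.2 ((ContinuousMap.evalCLM ℂ x).hasSum s.hasSum)).unique
    (.of_nat_of_neg_add_one (b.congr_fun fun n => ?_) (a.congr_fun fun n => ?_))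
  · simp [-fourier_apply, fourier_neg, ζp]
  · have := ζp (n + 1) x
    push_cast at this
    simp [-fourier_apply, this]; ring

lemma cle (F : L) (n : ℤ) : ‖c F n‖ ≤ ‖F‖ :=
  (lp.norm_apply_le_norm two_ne_zero (fourierBasis.repr F) n).trans_eq (fourierBasis.repr.norm_map F)

lemma est {X Y : L} {ε k : ℝ} (e0 : 0 ≤ ε) (k0 : 0 ≤ k) (h : ∀ᵐ x ∂μ, ‖X x‖ ≤ ε * (k + ‖Y x‖)) :
    ‖X‖ ≤ ε * (k + ‖Y‖) := by
  refine (Lp.norm_le_mul_norm_of_ae_le_mul (c := ε) (g := Lp.const 2 μ k + (Lp.memLp Y).norm.toLp) ?_).trans ?_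
  · filter_upwards [h, Lp.coeFn_add (Lp.const 2 μ k) (Lp.memLp Y).norm.toLp, Lp.coeFn_const 2 μ k,
      (Lp.memLp Y).norm.coeFn_toLp] with x a b c d
    rw [b, Pi.add_apply, c, d]
    exact a.trans (by gcongr; exact le_abs_self _)
  · gcongr
    refine (norm_add_le _ _).trans (add_le_add ((Lp.norm_const_le _ _ _).trans (by simp [abs_of_nonneg k0])) ?_)
    rw [Lp.norm_toLp, eLpNorm_norm, Lp.norm_def]

lemma mem {G : ℂ × ℂ → ℂ} {K : ℝ≥0} (h : LipschitzWith K G) (a : ℂ) (f : L) :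
    MemLp (fun x => G (ζ x, a + f x)) 2 μ := by
  refine ((memLp_const (‖G (0, a)‖ + K)).add ((Lp.memLp f).norm.const_mul K)).mono'
    (h.continuous.comp_aestronglyMeasurable (ζc.aestronglyMeasurable.prodMk
      (aestronglyMeasurable_const.add (Lp.aestronglyMeasurable f)))) (.of_forall fun x => ?_)
  have := h.norm_sub_le (ζ x, a + f x) (0, a)
  simp only [Prod.mk_sub_mk, sub_zero, add_sub_cancel_left, Prod.norm_mk, mem_sphere_zero_iff_norm.1 (ζs x)] at this
  have b : max 1 ‖f x‖ ≤ 1 + ‖f x‖ := max_le (by simp) (by simp)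
  have := norm_sub_norm_le (G (ζ x, a + f x)) (G (0, a))
  simp only [Pi.add_apply]
  nlinarith [K.2]

lemma e1 {G : ℂ × ℂ → ℂ} {K : ℝ≥0} (h : LipschitzWith K G) (a b : ℂ) (f g : L) :
    ‖(mem h a f).toLp - (mem h b g).toLp‖ ≤ K * (‖a - b‖ + ‖f - g‖) := by
  refine est K.2 (norm_nonneg _) ?_
  filter_upwards [Lp.coeFn_sub (mem h a f).toLp (mem h b g).toLp, (mem h a f).coeFn_toLp, (mem h b g).coeFn_toLp,
    Lp.coeFn_sub f g] with x p q r s
  rw [p, Pi.sub_apply, q, r, s, Pi.sub_apply]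
  refine (h.norm_sub_le _ _).trans (by gcongr; simpa [add_sub_add_comm] using norm_add_le _ _)

lemma e2 {G : ℂ × ℂ → ℂ} {K : ℝ≥0} (h : LipschitzWith K G) (a : ℂ) (f : L) (t : ℝ) :
    ‖τ t (mem h a f).toLp - (mem h a f).toLp‖ ≤ K * (7 * |t| + ‖τ t f - f‖) := by
  refine est K.2 (by positivity) ?_
  have m := measurePreserving_add_right μ (t : C)
  filter_upwards [Lp.coeFn_sub (τ t (mem h a f).toLp) (mem h a f).toLp, (mem h a f).coeFn_toLp,
    Lp.coeFn_compMeasurePreserving (mem h a f).toLp m, m.quasiMeasurePreserving.ae (mem h a f).coeFn_toLp,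
    Lp.coeFn_sub (τ t f) f, Lp.coeFn_compMeasurePreserving f m] with x p q r s u v
  rw [p, Pi.sub_apply, q, τ, r, Function.comp, s, u, Pi.sub_apply, τ, v, Function.comp]
  refine (h.norm_sub_le _ _).trans ?_
  gcongr
  simp only [Prod.mk_sub_mk, add_sub_add_left_eq_sub, Prod.norm_mk]
  exact max_le ((ζl x t).trans (by simp)) (by simp)

lemma RH {η : ℝ} (η0 : 0 < η) : ∃ ε : ℝ≥0, 0 < ε ∧ ε ≤ η ∧ ∀ R : ℂ × ℂ → ℂ, LipschitzWith ε R → ∃ g : ℂ → ℂ → ℂ,
    (∀ a, DiffContOnCl ℂ (g a) (ball 0 1) ∧ g a 0 = a ∧ (∀ z ∈ closedBall 0 1, ‖g a z - a‖ ≤ η) ∧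
      (∃ H, DiffContOnCl ℂ H (ball 0 1) ∧ ∀ z ∈ sphere 0 1, H z = conj (g a z) + R (z, g a z)) ∧
      ∀ (K : ℝ≥0) (b : ℂ × ℂ → ℝ), LipschitzWith K b →
        ∃ k : ℂ → ℂ, DiffContOnCl ℂ k (ball 0 1) ∧ ∀ z ∈ sphere 0 1, (k z).re = b (z, g a z)) ∧
    ∀ a b, ∀ z ∈ ball (0 : ℂ) (1 / 2), ‖g a z - g b z - (a - b)‖ ≤ ‖a - b‖ / 2 := by
  have S0 : 0 ≤ S := tsum_nonneg fun _ => by positivity
  obtain ⟨ε, ε0, ε1, ε2⟩ : ∃ ε : ℝ≥0, (0 : ℝ) < ε ∧ (ε : ℝ) ≤ 1 / 3 ∧ 14 * ε * (S + 1) ≤ η :=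
    ⟨⟨min (1 / 3) (η / (14 * (S + 1))), by positivity⟩, by show (0 : ℝ) < min _ _; positivity, min_le_left _ _, by
      have := (le_div_iff₀ (by positivity)).1 (min_le_right (1 / 3) (η / (14 * (S + 1))))
      show 14 * min _ _ * _ ≤ _
      linarith⟩
  refine ⟨ε, ε0, by nlinarith, fun R hR => ?_⟩
  have hG : LipschitzWith ε fun y => -conj (R y) := .of_dist_le_mul fun x y => by
    simpa using hR.dist_le_mul x y
  have d (a b : ℂ) (f g : L) : ‖P (mem hG a f).toLp - P (mem hG b g).toLp‖ ≤ ε * (‖a - b‖ + ‖f - g‖) := by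
    rw [← map_sub]; exact (nP _).trans (e1 hG a b f g)
  have ct (a : ℂ) : ContractingWith ε fun f => P (mem hG a f).toLp :=
    ⟨by rw [← NNReal.coe_lt_one]; linarith, .of_dist_le_mul fun f g => by simpa [dist_eq_norm] using d a a f g⟩
  choose f hf using fun a => (⟨_, (ct a).fixedPoint_isFixedPt.symm⟩ : ∃ f, f = P (mem hG a f).toLp)
  have t1 (a : ℂ) (t : ℝ) : ‖τ t (f a) - f a‖ ≤ 14 * ε * |t| := by
    have := (nP _).trans (e2 hG a (f a) t)
    rw [map_sub, ← τP, ← hf] at this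
    nlinarith [norm_nonneg (τ t (f a) - f a), mul_nonneg ε0.le (abs_nonneg t)]
  have g1 (a : ℂ) := good (by positivity) (t1 a)
  have s1 (a : ℂ) : Summable fun n : ℕ => ‖c (f a) (n + 1)‖ := (g1 a).1.comp_injective fun a b h => by simpa using h
  refine ⟨fun a z => a + pos (f a) z, fun a => ?_, fun a b z hz => ?_⟩
  · obtain ⟨p, -, q⟩ := split (g1 a).1
    have n : neg (f a) = 0 := by
      ext z
      rw [hf a]
      simp [neg, ser, cP, fun n : ℕ => (Nat.cast_nonneg (α := ℤ) n).not_gt]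
    have Y {G : ℂ × ℂ → ℂ} {K : ℝ≥0} (h : LipschitzWith K G) :
        DiffContOnCl ℂ (pos (mem h a (f a)).toLp) (ball 0 1) ∧ DiffContOnCl ℂ (neg (mem h a (f a)).toLp) (ball 0 1) ∧
        ∀ z ∈ sphere 0 1, G (z, a + pos (f a) z) = pos (mem h a (f a)).toLp z + conj (neg (mem h a (f a)).toLp z) := by
      obtain ⟨u, v, w⟩ := split (good (M := K * (7 + 14 * ε) + 1) (by positivity) fun t => (e2 h a (f a) t).trans (by
        nlinarith [mul_le_mul_of_nonneg_left (t1 a t) K.coe_nonneg, abs_nonneg t])).1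
      have cc {F : ℂ → ℂ} (h : DiffContOnCl ℂ F (ball 0 1)) : Continuous fun x => F (ζ x) :=
        h.continuousOn_ball.comp_continuous ζc fun x => sphere_subset_closedBall (ζs x)
      refine ⟨u, v, fun z hz => ?_⟩
      obtain ⟨x, rfl⟩ := ζo hz
      refine congrFun ((Continuous.ae_eq_iff_eq μ (h.continuous.comp (ζc.prodMk (continuous_const.add (cc p))))
        ((cc u).add (continuous_conj.comp (cc v)))).1 ?_) x
      filter_upwards [q, w, (mem h a (f a)).coeFn_toLp] with x q w r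
      simp only [n, Pi.zero_apply, map_zero, add_zero] at q
      simp only [Function.comp, Pi.add_apply]
      rw [← q, ← r, w]
    refine ⟨p.const_add a, by simp [pos], fun z hz => ?_, ?_, fun K b hb => ?_⟩
    · rw [add_sub_cancel_left, pos, norm_mul]
      refine (mul_le_of_le_one_left (norm_nonneg _) (mem_closedBall_zero_iff.1 hz)).trans ?_
      exact (tsum_of_norm_bounded (s1 a).hasSum (sb _ hz)).trans ((g1 a).2.trans ε2)
    · obtain ⟨-, v, w⟩ := Y hG
      refine ⟨_, v.const_sub (conj a), fun z hz => ?_⟩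
      have e : pos (mem hG a (f a)).toLp z = pos (f a) z := by
        conv_rhs => rw [hf a]
        simp [pos, cP]
      have := congrArg conj (w z hz)
      simp only [e, map_neg, conj_conj, map_add] at this ⊢
      linear_combination this
    · obtain ⟨u, v, w⟩ := Y (isometry_ofReal.lipschitz.comp hb)
      exact ⟨_, u.add v, fun z hz => by simpa using (congrArg re (w z hz)).symm⟩
  · have z1 := mem_ball_zero_iff.1 hz
    have z2 : z ∈ closedBall (0 : ℂ) 1 := mem_closedBall_zero_iff.2 (by linarith)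
    have := d a b (f a) (f b)
    rw [← hf, ← hf] at this
    rw [add_sub_add_comm, add_sub_cancel_left, pos, pos, ← mul_sub, ser, ser, ← ((s1 a).of_norm_bounded (sb _ z2)).tsum_sub
      ((s1 b).of_norm_bounded (sb _ z2)), norm_mul]
    have k := tsum_of_norm_bounded (f := fun n : ℕ => c (f a) (n + 1) * z ^ n - c (f b) (n + 1) * z ^ n)
      (hasSum_geometric_two.mul_left ‖f a - f b‖) fun n => by
        rw [← sub_mul, ← csub, norm_mul, norm_pow]
        gcongr
        exact cle _ _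
    refine (mul_le_mul z1.le k (norm_nonneg _) (by norm_num)).trans ?_
    nlinarith [norm_nonneg (f a - f b), norm_nonneg (a - b)]

end Pool.Agent.H.MP_b3426d_an
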