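import Pool.Agent.H.MP_b3426d_an.A
import Pool.Agent.H.MP_b3426d_an.B

open Set Metric Filter Topology Complex InnerProductSpace
open scoped ComplexConjugate NNReal

namespace Pool.Agent.H.MP_b3426d_an

def Fam (u : V → ℝ) (g : ℂ → ℂ → ℂ) : Prop :=
  (∀ a, DiffContOnCl ℂ (g a) (ball 0 1) ∧ g a 0 = a) ∧
  (∀ a b, ∀ z ∈ ball (0 : ℂ) (1 / 2), ‖g a z - g b z - (a - b)‖ ≤ ‖a - b‖ / 2) ∧
  ∀ a ∈ ball (0 : ℂ) (1 / 40), (∀ z ∈ closedBall 0 1, ‖g a z‖ ≤ 1 / 20) ∧ ∃ Φ : V → ℂ, ∃ c > (0 : ℝ),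
    (∀ x : V, ‖x.1‖ < 1 → DifferentiableAt ℂ Φ x) ∧ (∀ z ∈ ball 0 1, u (z, g a z) = (Φ (z, g a z)).re) ∧
      ∀ x ∈ closedBall 0 1 ×ˢ closedBall 0 2, (Φ x).re + c * ‖x.2 - g a x.1‖ ^ 2 ≤ u x

lemma LT : ∃ ε : ℝ≥0, 0 < ε ∧ ∀ (u f : V → ℝ) (D : V → V →L[ℝ] ℝ), (∀ x, u x = f x + ‖x.2‖ ^ 2) →
    (∀ x ∈ ball 0 3, HasFDerivAt f (D x) x) → LipschitzOnWith ε D (ball 0 3) → D 0 = 0 →
    (∀ x ∈ ball 0 3, Sub u x ∧ Deg u x) → ∃ g, Fam u g := by
  obtain ⟨ε, ε0, ε1, hR⟩ := RH (η := 1 / 40) (by norm_num)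
  refine ⟨ε / (lipschitzExtensionConstant ℂ + 1), by positivity, fun u f D hu hf hD D0 hs => ?_⟩
  set ε' := ε / (lipschitzExtensionConstant ℂ + 1)
  have e1 : (ε' : ℝ) ≤ 1 / 40 := le_trans (NNReal.coe_le_coe.2 (div_le_self zero_le le_add_self)) ε1
  have nr (B : V →L[ℝ] ℝ) : ‖((B (0, 1) : ℂ) - B (I • (0, 1)) * I) / 2‖ ≤ ‖B‖ := by
    have a := B.le_opNorm (0, 1)
    have b := B.le_opNorm (I • (0, 1))
    have := norm_sub_le (B (0, 1) : ℂ) (B (I • (0, 1)) * I)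
    simp only [norm_smul, norm_mul, norm_real, norm_I, Prod.norm_mk, norm_zero, norm_one, zero_le_one, max_eq_right,
      norm_div, Complex.norm_two] at *
    linarith
  obtain ⟨R, lR, eR⟩ := LipschitzOnWith.extend_finite_dimension (K := ε') (s := ball 0 3)
    (f := fun x => ((D x (0, 1) : ℂ) - D x (I • (0, 1)) * I) / 2) (.of_dist_le_mul fun x hx y hy => by
      refine le_trans (le_of_eq_of_le ?_ (nr (D x - D y))) (dist_eq_norm (D x) _ ▸ hD.dist_le_mul x hx y hy)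
      rw [dist_eq_norm]; congr 1; simp; ring)
  obtain ⟨g, hg, hl⟩ := hR R (lR.weaken (by
    rw [mul_comm, div_mul_eq_mul_div, div_le_iff₀ (by positivity)]; gcongr; exact le_self_add))
  have nD (x) (hx : x ∈ ball (0 : V) 3) : ‖D x‖ ≤ 3 / 40 := by
    have := hD.dist_le_mul x hx 0 (mem_ball_self (by norm_num))
    rw [D0, dist_zero_right] at this
    nlinarith [mem_ball.1 hx, dist_nonneg (x := x) (y := 0), ε'.coe_nonneg]
  have lf : LipschitzOnWith (3 / 40) f (ball 0 3) := (convex_ball 0 3).lipschitzOnWith_of_nnnorm_hasFDerivWithin_le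
    (fun x hx => (hf x hx).hasFDerivWithinAt) nD
  have nf (x) (hx : x ∈ ball (0 : V) 3) : |f x - f 0| ≤ 9 / 40 := by
    have : |f x - f 0| ≤ 3 / 40 * dist x 0 := lf.dist_le_mul x hx 0 (mem_ball_self (by norm_num))
    linarith [mem_ball.1 hx]
  obtain ⟨K, hK⟩ := ((contDiff_snd (𝕜 := ℝ) (E := ℂ) (F := ℂ) (n := 1)).norm_sq ℂ).contDiffOn.exists_lipschitzOnWith
    one_ne_zero (convex_closedBall 0 3) (isCompact_closedBall 0 3)
  obtain ⟨b, lb, eb⟩ := (lf.add (hK.mono ball_subset_closedBall)).extend_real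
  refine ⟨g, fun a => ⟨(hg a).1, (hg a).2.1⟩, hl, fun a ha => ?_⟩
  obtain ⟨dg, -, ng, ⟨H, dH, hH⟩, hk⟩ := hg a
  obtain ⟨k, dk, hk⟩ := hk _ b lb
  have n1 (z) (hz : z ∈ closedBall (0 : ℂ) 1) : ‖g a z‖ ≤ 1 / 20 := by
    linarith [norm_le_insert' (g a z) a, ng z hz, mem_ball_zero_iff.1 ha]
  have mK (x) (hx : x ∈ closedBall (0 : ℂ) 1 ×ˢ closedBall (0 : ℂ) 2) : x ∈ ball (0 : V) 3 :=
    mem_ball_zero_iff.2 (max_lt ((mem_closedBall_zero_iff.1 hx.1).trans_lt (by norm_num))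
      ((mem_closedBall_zero_iff.1 hx.2).trans_lt (by norm_num)))
  have m0 (z) (hz : z ∈ closedBall (0 : ℂ) 1) : (z, g a z) ∈ closedBall (0 : ℂ) 1 ×ˢ closedBall (0 : ℂ) 2 :=
    ⟨hz, mem_closedBall_zero_iff.2 ((n1 z hz).trans (by norm_num))⟩
  have m1 (z) (hz : z ∈ sphere (0 : ℂ) 1) := mK _ (m0 z (sphere_subset_closedBall hz))
  have k1 (z) (hz : z ∈ sphere (0 : ℂ) 1) : (k z).re = u (z, g a z) := by rw [hk z hz, hu, ← eb (m1 z hz)]
  have nH (z) (hz : z ∈ closedBall (0 : ℂ) 1) : ‖H z‖ ≤ 1 / 8 :=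
    norm_le_of_forall_mem_frontier_norm_le isBounded_ball dH (fun z hz => by
      rw [frontier_ball _ one_ne_zero] at hz
      rw [hH z hz, ← eR (m1 z hz)]
      linarith [norm_add_le (conj (g a z)) ((((D (z, g a z)) (0, 1) : ℂ) - D (z, g a z) (I • (0, 1)) * I) / 2),
        norm_conj (g a z), n1 z (sphere_subset_closedBall hz), nr (D (z, g a z)), nD _ (m1 z hz)])
      (by rwa [closure_ball _ one_ne_zero])
  have nk := RM (C := f 0 + 1 / 4) one_pos dk fun z hz => by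
    rw [k1 z hz, hu]
    nlinarith [(abs_le.1 (nf _ (m1 z hz))).2, n1 z (sphere_subset_closedBall hz), norm_nonneg (g a z)]
  have cu : ContinuousOn u (ball 0 3) := funext hu ▸ lf.continuousOn.add (by fun_prop)
  have dd {F : ℂ → ℂ} (h : DiffContOnCl ℂ F (ball 0 1)) (x : V) (hx : ‖x.1‖ < 1) : DifferentiableAt ℂ (fun x : V => F x.1) x :=
    (h.differentiableAt isOpen_ball (mem_ball_zero_iff.2 hx)).comp x differentiableAt_fst
  have cc {F : ℂ → ℂ} (h : DiffContOnCl ℂ F (ball 0 1)) :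
      ContinuousOn (fun x : V => F x.1) (closedBall (0 : ℂ) 1 ×ˢ closedBall (0 : ℂ) 2) :=
    h.continuousOn_ball.comp continuousOn_fst fun x hx => hx.1
  set Φ := fun x : V => k x.1 + (2 : ℝ) * (H x.1 * (x.2 - g a x.1)) with hΦ
  have dΦ (x : V) (hx : ‖x.1‖ < 1) : DifferentiableAt ℂ Φ x :=
    (dd dk x hx).add (((dd dH x hx).mul (differentiableAt_snd.sub (dd dg x hx))).const_mul _)
  have cv : ContinuousOn (fun x => (Φ x).re + 1 / 2 * ‖x.2 - g a x.1‖ ^ 2) (closedBall 0 1 ×ˢ closedBall 0 2) := by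
    have d := continuousOn_snd.sub (cc dg)
    rw [hΦ]
    exact (continuous_re.comp_continuousOn ((cc dk).add (((cc dH).mul d).const_mul _))).add ((d.norm.pow 2).const_mul _)
  have key := CP (v := fun x => ((Φ x).re + 1 / 2 * ‖x.2 - g a x.1‖ ^ 2 : ℝ))
    ((isCompact_closedBall (0 : ℂ) 1).prod (isCompact_closedBall (0 : ℂ) 2))
    (continuous_coe_real_ereal.comp_continuousOn cv).upperSemicontinuousOn (fun _ _ => EReal.coe_ne_top _) (cu.mono mK) fun x hx c => by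
    have c := EReal.coe_lt_coe_iff.1 c
    simp only [hΦ, add_re, re_ofReal_mul, hu x] at c
    have x1 : ‖x.1‖ < 1 := (mem_closedBall_zero_iff.1 hx.1).lt_of_ne fun e => by
      have s := mem_sphere_zero_iff_norm.2 e
      have e : x - (x.1, g a x.1) = (x.2 - g a x.1) • (0, 1) := by ext <;> simp
      have n : ‖x - (x.1, g a x.1)‖ = ‖x.2 - g a x.1‖ := by simp [e]
      have := ((convex_ball 0 3).inter (convex_closedBall (x.1, g a x.1)
        ‖x - (x.1, g a x.1)‖)).norm_image_sub_le_of_norm_hasFDerivWithin_le' (φ := D (x.1, g a x.1))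
        (C := 1 / 40 * ‖x - (x.1, g a x.1)‖) (fun y hy => (hf y hy.1).hasFDerivWithinAt) (fun y hy => by
          rw [← dist_eq_norm]
          exact (hD.dist_le_mul y hy.1 _ (m1 _ s)).trans (mul_le_mul e1 hy.2 dist_nonneg (by norm_num)))
        ⟨m1 _ s, mem_closedBall_self (norm_nonneg _)⟩ ⟨mK x hx, mem_closedBall_iff_norm.2 le_rfl⟩
      rw [n, e, lin, mul_comm (x.2 - _)] at this
      have q := nsq (g a x.1) (x.2 - g a x.1)
      rw [k1 _ s, hu, hH _ s, ← eR (m1 _ s), add_mul, div_mul_eq_mul_div, add_re, div_ofNat_re] at c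
      rw [add_sub_cancel] at q
      nlinarith [(abs_le.1 this).1, sq_nonneg ‖x.2 - g a x.1‖]
    have x2 : ‖x.2‖ < 2 := (mem_closedBall_zero_iff.1 hx.2).lt_of_ne fun e => by
      have p := norm_sub_le x.2 (g a x.1)
      have := (re_le_norm (H x.1 * (x.2 - g a x.1))).trans_eq (norm_mul _ _)
      rw [e] at c p
      nlinarith [(abs_le.1 (nf _ (mK x hx))).1, n1 _ hx.1, nH _ hx.1, nk _ hx.1, norm_nonneg (x.2 - g a x.1)]
    refine ⟨prod_mem_nhds (closedBall_mem_nhds_of_mem (mem_ball_zero_iff.2 x1))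
      (closedBall_mem_nhds_of_mem (mem_ball_zero_iff.2 x2)), (hs x (mK x hx)).2, fun w q t t0 dq h e => ?_⟩
    refine RM' (c := 0) (f := fun z => Φ (x + z • w) + conj (x.2 - g a x.1) *
      ((x + z • w).2 - g a (x + z • w).1 - (x.2 - g a x.1)) - q z) t0 ?_ (h.mono fun z hz => ?_)
    · filter_upwards [(Continuous.tendsto' (f := fun z : ℂ => ‖(x + z • w).1‖) (by fun_prop) 0 _ (by simp)).eventually_lt_const
        x1] with z hz
      have l : DifferentiableAt ℂ (fun z : ℂ => x + z • w) z := by fun_prop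
      exact (((dΦ _ hz).comp z l).add ((((differentiableAt_snd.sub (dd dg _ hz)).comp z l).sub_const _).const_mul _)).sub (dq z)
    · have hz := EReal.coe_le_coe_iff.1 hz
      have e := EReal.coe_injective e
      have := nsq (x.2 - g a x.1) ((x + z • w).2 - g a (x + z • w).1 - (x.2 - g a x.1))
      simp only [add_sub_cancel, zero_smul, add_zero, sub_self, mul_zero, sub_zero, add_re, sub_re] at this e ⊢
      linarith [sq_nonneg ‖(x + z • w).2 - g a (x + z • w).1 - (x.2 - g a x.1)‖]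
  refine ⟨n1, Φ, 1 / 2, by norm_num, dΦ, fun z hz => le_antisymm ?_ ?_, fun x hx => EReal.coe_le_coe_iff.1 (key x hx)⟩
  · simpa [hΦ] using SM (γ := fun z => (z, g a z)) (differentiableOn_id.prodMk dg.1)
      (cu.comp (continuousOn_id.prodMk dg.continuousOn_ball) fun z hz => mK _ (m0 z hz))
      (fun z hz => (hs _ (mK _ (m0 z (ball_subset_closedBall hz)))).1) dk (fun z hz => (k1 z hz).ge) z
      (ball_subset_closedBall hz)
  · simpa using EReal.coe_le_coe_iff.1 (key _ (m0 z (ball_subset_closedBall hz)))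

end Pool.Agent.H.MP_b3426d_an
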