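import Pool.Agent.H.MP_b3426d_an.C

open Set Metric Filter Topology Complex InnerProductSpace
open scoped ComplexConjugate NNReal

namespace Pool.Agent.H.MP_b3426d_an

lemma HZ {h : ℂ → ℝ} (hh : HarmonicOnNhd h (ball 0 1)) (h0 : ∀ z ∈ ball (0 : ℂ) 1, 0 ≤ h z) (e : h 0 = 0) :
    ∀ z ∈ ball (0 : ℂ) 1, h z = 0 := fun z hz => by
  obtain ⟨F, aF, k⟩ := hh.exists_analyticOnNhd_ball_re_eq
  have k (z) (hz : z ∈ ball (0 : ℂ) 1) : (F z).re = h z := k hz
  simpa [norm_exp, k z hz, k 0, e] using norm_eqOn_of_isPreconnected_of_isMaxOn (convex_ball 0 1).isPreconnected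
    isOpen_ball aF.differentiableOn.neg.cexp (mem_ball_self one_pos) (fun s hs => by
      simpa [norm_exp, k s hs, k 0, e] using h0 s hs) hz

lemma FB {u : V → ℝ} {g : ℂ → ℂ → ℂ} (h : Fam u g) : ∃ e : OpenPartialHomeomorph V V,
    e.source = ball 0 (1 / 2) ×ˢ ball 0 (1 / 40) ∧ (∀ y, e y = (y.1, g y.2 y.1)) ∧ 0 ∈ e.target ∧ e.target ⊆ ball 0 3 ∧
    (∀ t ∈ ball (0 : ℂ) (1 / 40), HarmonicOnNhd (fun z => u (z, g t z)) (ball 0 1)) ∧
    ∀ f : ℂ → V, DifferentiableOn ℂ f (ball 0 1) → MapsTo f (ball 0 1) e.target →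
      HarmonicOnNhd (fun z => u (f z)) (ball 0 1) → ∀ z ∈ ball 0 1, (e.symm (f z)).2 = (e.symm (f 0)).2 := by
  obtain ⟨hg, hl, hΦ⟩ := h
  have lo (a b z : ℂ) (hz : z ∈ ball (0 : ℂ) (1 / 2)) : ‖a - b‖ ≤ 2 * ‖g a z - g b z‖ := by
    linarith [norm_le_insert (g a z - g b z) (a - b), hl a b z hz]
  have inj {a b z : ℂ} (hz : z ∈ ball (0 : ℂ) (1 / 2)) (e : g a z = g b z) : a = b := by
    simpa [e, sub_eq_zero] using lo a b z hz
  have sb : ball (0 : ℂ) (1 / 2) ⊆ ball 0 1 := ball_subset_ball (by norm_num)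
  choose! τ hτ using fun (x : V) (hx : x.1 ∈ ball (0 : ℂ) (1 / 2)) => show ∃ a, g a x.1 = x.2 by
    have : ContractingWith (1 / 2) fun a => x.2 - (g a x.1 - a) := ⟨by norm_num, .of_dist_le_mul fun a b => by
      rw [dist_sub_left, dist_eq_norm, dist_eq_norm, sub_sub_sub_comm]
      exact (hl a b _ hx).trans_eq (by simp; ring)⟩
    exact ⟨_, by linear_combination -this.fixedPoint_isFixedPt.eq⟩
  have cτ : ContinuousOn τ (ball 0 (1 / 2) ×ˢ univ) := fun y hy => by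
    refine tendsto_iff_norm_sub_tendsto_zero.2 (squeeze_zero' (.of_forall fun _ => norm_nonneg _)
      (eventually_mem_nhdsWithin.mono fun x hx => (lo _ _ _ hx.1).trans_eq (by rw [hτ x hx.1])) ?_)
    have := ((hg (τ y)).1.differentiableAt isOpen_ball (sb hy.1)).continuousAt
    exact (ContinuousAt.tendsto (by fun_prop)).mono_left nhdsWithin_le_nhds |>.trans_eq (by simp [hτ y hy.1])
  have τ0 : τ 0 = 0 := ((hg _).2.symm.trans (hτ 0 (by simp)))
  have mK (x : V) (h1 : x.1 ∈ ball (0 : ℂ) (1 / 2)) (h2 : τ x ∈ ball (0 : ℂ) (1 / 40)) : ‖x.2‖ ≤ 1 / 20 :=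
    hτ x h1 ▸ (hΦ _ h2).1 _ (ball_subset_closedBall (sb h1))
  refine ⟨{ toFun y := (y.1, g y.2 y.1)
            invFun x := (x.1, τ x)
            source := ball 0 (1 / 2) ×ˢ ball 0 (1 / 40)
            target := ball 0 (1 / 2) ×ˢ univ ∩ τ ⁻¹' ball 0 (1 / 40)
            map_source' y hy := ⟨⟨hy.1, trivial⟩, by
              rw [mem_preimage, inj hy.1 (hτ (y.1, g y.2 y.1) hy.1)]; exact hy.2⟩
            map_target' x hx := ⟨hx.1.1, hx.2⟩
            left_inv' y hy := Prod.ext rfl (inj hy.1 (hτ (y.1, g y.2 y.1) hy.1))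
            right_inv' x hx := Prod.ext rfl (hτ x hx.1.1)
            open_source := isOpen_ball.prod isOpen_ball
            open_target := cτ.isOpen_inter_preimage (isOpen_ball.prod isOpen_univ) isOpen_ball
            continuousOn_toFun := continuousOn_fst.prodMk (continuousOn_prod_of_continuousOn_lipschitzOnWith' _ 2
              (fun z hz => .of_dist_le_mul fun a _ b _ => by
                simp only [dist_eq_norm, NNReal.coe_ofNat]
                linarith [norm_le_insert' (g a z - g b z) (a - b), hl a b z hz, norm_nonneg (a - b)])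
              fun a _ => (hg a).1.1.continuousOn.mono sb)
            continuousOn_invFun := continuousOn_fst.prodMk (cτ.mono inter_subset_left) },
    rfl, fun _ => rfl, by simp [τ0], fun x hx => mem_ball_zero_iff.2 (max_lt ((mem_ball_zero_iff.1 hx.1.1).trans
      (by norm_num)) ((mK x hx.1.1 hx.2).trans_lt (by norm_num))), fun t ht z hz => ?_, fun f df m hf z hz => ?_⟩
  · obtain ⟨-, Φ, c, -, d, e, -⟩ := hΦ t ht
    have : DifferentiableOn ℂ (fun z => Φ (z, g t z)) (ball 0 1) := fun z hz =>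
      (d _ (mem_ball_zero_iff.1 hz)).comp_differentiableWithinAt z ((differentiableOn_id.prodMk (hg t).1.1) z hz)
    exact (harmonicAt_congr_nhds ((eventually_mem_set.2 (isOpen_ball.mem_nhds hz)).mono e)).2
      (this.analyticOnNhd isOpen_ball z hz).harmonicAt_re
  have m0 := m (mem_ball_self one_pos)
  obtain ⟨-, Φ, c, c0, d, e, k⟩ := hΦ _ m0.2
  have : DifferentiableOn ℂ (fun z => Φ (f z)) (ball 0 1) := fun z hz =>
    (d _ (mem_ball_zero_iff.1 (sb (m hz).1.1))).comp_differentiableWithinAt z (df z hz)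
  have k (z) (hz : z ∈ ball (0 : ℂ) 1) := k (f z) ⟨ball_subset_closedBall (sb (m hz).1.1),
    mem_closedBall_zero_iff.2 ((mK _ (m hz).1.1 (m hz).2).trans (by norm_num))⟩
  have := HZ (h := fun z => u (f z) - (Φ (f z)).re)
    (fun z hz => (hf z hz).sub (this.analyticOnNhd isOpen_ball z hz).harmonicAt_re)
    (fun z hz => by nlinarith [k z hz, sq_nonneg ‖(f z).2 - g (τ (f 0)) (f z).1‖]) (by
      have := e _ (sb m0.1.1)
      rw [hτ _ m0.1.1] at this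
      exact sub_eq_zero.2 this) z hz
  have : ‖(f z).2 - g (τ (f 0)) (f z).1‖ ^ 2 = 0 := le_antisymm (by nlinarith [k z hz]) (sq_nonneg _)
  exact inj (m hz).1.1 ((hτ _ (m hz).1.1).trans (sub_eq_zero.1 (norm_eq_zero.1 (pow_eq_zero_iff two_ne_zero |>.1 this))))

lemma NM {φ : V → ℝ} {p w : V} {Ω : Set V} (hΩ : Ω ∈ 𝓝 p) (hφ : ContDiffAt ℝ 2 φ p) (hw : 0 < Lv φ p w) {ε : ℝ≥0}
    (ε0 : 0 < ε) : ∃ A : V ≃L[ℂ] V, ∃ c > (0 : ℝ), ∃ (Q : V → ℂ) (f : V → ℝ) (D : V → V →L[ℝ] ℝ), Differentiable ℂ Q ∧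
      (∀ x, c * φ (p + A x) - (Q x).re = f x + ‖x.2‖ ^ 2) ∧ (∀ x ∈ ball 0 3, p + A x ∈ Ω) ∧
      (∀ x ∈ ball 0 3, HasFDerivAt f (D x) x) ∧ LipschitzOnWith ε D (ball 0 3) ∧ D 0 = 0 := by
  set B := fderiv ℝ (fderiv ℝ φ) p
  set v : V := (conj w.2, -conj w.1)
  set C := ‖v‖ + ‖w‖
  obtain ⟨κ, κ0, κ1, κ2⟩ : ∃ κ > (0 : ℝ), κ ≤ 1 ∧ κ * (C ^ 2 * (1 + 2 * ‖B‖)) ≤ ε * (Lv φ p w / 4) := by
    refine ⟨min 1 (ε * (Lv φ p w / 4) / (C ^ 2 * (1 + 2 * ‖B‖) + 1)), by positivity, min_le_left _ _, ?_⟩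
    refine le_trans ?_ ((le_div_iff₀ (by positivity)).1 (min_le_right 1 (_ / (C ^ 2 * (1 + 2 * ‖B‖) + 1))))
    gcongr; simp
  have a := (hasStrictFDerivAt_iff_isLittleO.1 ((hφ.fderiv_right (m := 1) (by norm_num)).hasStrictFDerivAt
    one_ne_zero)).def κ0
  rw [nhds_prod_eq, eventually_prod_self_iff'] at a
  obtain ⟨s, hs, a⟩ := a
  obtain ⟨r, r0, hr⟩ := Metric.mem_nhds_iff.1 (inter_mem hs (inter_mem hΩ (hφ.eventually (by simp))))
  obtain ⟨σ, σ0, hσ⟩ : ∃ σ > (0 : ℝ), σ * (3 * C + 1) = r := ⟨_, by positivity, div_mul_cancel₀ _ (by positivity)⟩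
  let M : V →L[ℂ] V := (ContinuousLinearMap.fst ℂ ℂ ℂ).smulRight ((κ * σ) • v)
  let J : V →L[ℂ] V := (ContinuousLinearMap.snd ℂ ℂ ℂ).smulRight (σ • w)
  have nM (x : V) : ‖M x‖ ≤ κ * σ * ‖v‖ * ‖x‖ := by
    simp only [M, ContinuousLinearMap.smulRight_apply, norm_smul, Real.norm_of_nonneg (mul_pos κ0 σ0).le]
    rw [mul_comm]; gcongr; exact norm_fst_le x
  have nJ (x : V) : ‖J x‖ ≤ σ * ‖w‖ * ‖x‖ := by
    simp only [J, ContinuousLinearMap.smulRight_apply, norm_smul, Real.norm_of_nonneg σ0.le]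
    rw [mul_comm]; gcongr; exact norm_snd_le x
  have nA (x : V) : ‖M x + J x‖ ≤ σ * C * ‖x‖ := by
    have : κ * (σ * ‖v‖ * ‖x‖) ≤ 1 * (σ * ‖v‖ * ‖x‖) := by gcongr
    linarith [norm_add_le (M x) (J x), nM x, nJ x, show σ * C * ‖x‖ = σ * ‖v‖ * ‖x‖ + σ * ‖w‖ * ‖x‖ by ring]
  have N0 : w.1 * conj w.1 + w.2 * conj w.2 ≠ 0 := fun e => by
    rw [mul_conj, mul_conj, ← ofReal_add, ofReal_eq_zero,
      add_eq_zero_iff_of_nonneg (normSq_nonneg _) (normSq_nonneg _), normSq_eq_zero, normSq_eq_zero] at e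
    simp [Lv, show w = 0 from Prod.ext e.1 e.2] at hw
  let A : V ≃L[ℂ] V := (LinearEquiv.ofInjectiveEndo (M + J).toLinearMap ((injective_iff_map_eq_zero _).2 fun x e => by
    have e1 := congrArg Prod.fst e
    have e2 := congrArg Prod.snd e
    simp [M, J, v] at e1 e2
    refine Prod.ext (mul_right_cancel₀ (mul_ne_zero (ofReal_ne_zero.2 (mul_pos κ0 σ0).ne') N0) ?_)
      (mul_right_cancel₀ (mul_ne_zero (ofReal_ne_zero.2 σ0.ne') N0) ?_)
    · simp only [Prod.fst_zero, ofReal_mul]; linear_combination w.2 * e1 - w.1 * e2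
    · simp only [Prod.snd_zero]; linear_combination conj w.1 * e1 + conj w.2 * e2)).toContinuousLinearEquiv
  have hA (x : V) : A x = M x + J x := rfl
  have m (x : V) (hx : x ∈ ball 0 3) := hr (show p + A x ∈ ball p r by
    rw [mem_ball_iff_norm, add_sub_cancel_left, hA]
    nlinarith [nA x, mem_ball_zero_iff.1 hx, mul_nonneg σ0.le (show 0 ≤ C by positivity)])
  obtain ⟨c, c0, hc⟩ : ∃ c > (0 : ℝ), c * (σ ^ 2 * (Lv φ p w / 4)) = 1 := ⟨_, by positivity, inv_mul_cancel₀ (by positivity)⟩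
  obtain ⟨l1, h1⟩ : ∃ l : ℂ, ∀ x : V, fderiv ℝ φ p (M x) = (x.1 * l).re := ⟨_, fun x => lin _ _ _⟩
  obtain ⟨l2, h2⟩ : ∃ l : ℂ, ∀ x : V, fderiv ℝ φ p (J x) = (x.2 * l).re := ⟨_, fun x => lin _ _ _⟩
  obtain ⟨β, hβ⟩ : ∃ l : ℂ, ∀ x : V, B (J x) (J x) - B (I • J x) (I • J x) = (x.2 * x.2 * l).re :=
    ⟨_, fun x => quad _ _ _ _ _⟩
  let A' := (A : V →L[ℂ] V).restrictScalars ℝ
  let J' := J.restrictScalars ℝ
  refine ⟨A, c, c0, fun x => c * (x.1 * l1 + x.2 * l2 + x.2 * x.2 * β / (4 : ℝ)),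
    fun x => c * (φ (p + A x) - fderiv ℝ φ p (A x) - 1 / 2 * B (J x) (J x)),
    fun x => c • ((fderiv ℝ φ (p + A x) - fderiv ℝ φ p).comp A' - (B (J x)).comp J'), by fun_prop, fun x => ?_,
    fun x hx => (m x hx).2.1, fun x hx => ?_, .of_dist_le_mul fun x hx y hy => ?_, by simp⟩
  · have : B (J x) (J x) + B (I • J x) (I • J x) = ‖x.2‖ ^ 2 * (σ ^ 2 * Lv φ p w) := by
      have := Lvs φ p w σ
      rw [norm_real, Real.norm_of_nonneg σ0.le] at this
      exact (Lvs φ p (σ • w) x.2).trans (by rw [← this, coe_smul])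
    simp only [re_ofReal_mul, add_re, div_ofReal_re, ← h1, ← h2, ← hβ, hA, map_add]
    linear_combination c / 4 * this + ‖x.2‖ ^ 2 * hc
  · refine (((((ContDiffAt.differentiableAt (n := 2) (f := φ) (m x hx).2.2 (by simp)).hasFDerivAt.comp x (A'.hasFDerivAt.const_add p)).sub
      ((fderiv ℝ φ p).comp A').hasFDerivAt).sub (((B.comp J').hasFDerivAt.clm_apply J'.hasFDerivAt).const_mul
        (1 / 2))).const_mul c).congr_fderiv (ContinuousLinearMap.ext fun h => ?_)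
    simp [B, (hφ.isSymmSndFDerivAt (by simp)).eq (J h), A', J']
    left; ring
  rw [dist_eq_norm, dist_eq_norm]
  refine ContinuousLinearMap.opNorm_le_bound _ (by positivity) fun h => ?_
  have e := a _ (m x hx).1 _ (m y hy).1
  rw [add_sub_add_left_eq_sub, ← map_sub] at e
  have b1 := (ContinuousLinearMap.le_opNorm _ (A h)).trans (mul_le_mul (e.trans (mul_le_mul_of_nonneg_left (nA _) κ0.le))
    (nA h) (norm_nonneg _) (by positivity))
  have b2 : ‖B (M (x - y)) (A h)‖ ≤ ‖B‖ * (κ * σ * C * ‖x - y‖) * (σ * C * ‖h‖) := (B.le_opNorm₂ _ _).trans (by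
    gcongr
    exacts [(nM _).trans (by gcongr; simp [C]), nA h])
  have b3 : ‖B (J (x - y)) (M h)‖ ≤ ‖B‖ * (σ * C * ‖x - y‖) * (κ * σ * C * ‖h‖) := (B.le_opNorm₂ _ _).trans (by
    gcongr
    exacts [(nJ _).trans (by gcongr; simp [C]), (nM _).trans (by gcongr; simp [C])])
  calc _ = ‖c * ((fderiv ℝ φ (p + A x) - fderiv ℝ φ (p + A y) - B (A (x - y))) (A h) + B (M (x - y)) (A h) +
        B (J (x - y)) (M h))‖ := by
        congr 1
        simp [A', J', hA]; ring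
    _ ≤ c * (σ ^ 2 * (κ * (C ^ 2 * (1 + 2 * ‖B‖))) * (‖x - y‖ * ‖h‖)) := by
        rw [norm_mul, Real.norm_of_nonneg c0.le]
        gcongr
        exact (norm_add₃_le.trans (add_le_add (add_le_add b1 b2) b3)).trans_eq (by ring)
    _ ≤ c * (σ ^ 2 * (ε * (Lv φ p w / 4)) * (‖x - y‖ * ‖h‖)) := by gcongr
    _ = _ := by linear_combination ε * (‖x - y‖ * ‖h‖) * hc

lemma tr {φ : V → ℝ} {p x : V} (A : V ≃L[ℂ] V) {c : ℝ} (c0 : 0 < c) {Q : V → ℂ} (dQ : Differentiable ℂ Q)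
    (h : Sub φ (p + A x) ∧ Deg φ (p + A x)) :
    Sub (fun x => c * φ (p + A x) - (Q x).re) x ∧ Deg (fun x => c * φ (p + A x) - (Q x).re) x := by
  obtain ⟨h, w, w0, k⟩ := h
  refine ⟨fun η η0 => ?_, A.symm w, by simpa, fun η η0 => ?_⟩
  · obtain ⟨P, d, e, h⟩ := h (η / (c * (‖(A : V →L[ℂ] V)‖ ^ 2 + 1))) (by positivity)
    refine ⟨fun y => c * P (A y) - Q (x + y), by fun_prop, by simp [e],
      ((A.continuous.tendsto' 0 0 (by simp)).eventually h).mono fun y hy => ?_⟩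
    have a : ‖A y‖ ^ 2 ≤ (‖(A : V →L[ℂ] V)‖ ^ 2 + 1) * ‖y‖ ^ 2 := by
      nlinarith [pow_le_pow_left₀ (norm_nonneg (A y)) ((A : V →L[ℂ] V).le_opNorm y) 2, sq_nonneg ‖y‖]
    have b : c * (η / (c * (‖(A : V →L[ℂ] V)‖ ^ 2 + 1)) * ‖A y‖ ^ 2) ≤ η * ‖y‖ ^ 2 :=
      (mul_le_mul_of_nonneg_left (mul_le_mul_of_nonneg_left a (by positivity)) c0.le).trans_eq (by field_simp)
    simp only [sub_re, re_ofReal_mul, map_add, ← add_assoc]
    nlinarith [mul_le_mul_of_nonneg_left hy c0.le]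
  · obtain ⟨q, d, e, h⟩ := k (η / c) (by positivity)
    refine ⟨fun z => c * q z - Q (x + z • A.symm w), by fun_prop, by simp [e], h.mono fun z hz => ?_⟩
    have := mul_le_mul_of_nonneg_left hz c0.le
    rw [mul_add, ← mul_assoc, mul_div_cancel₀ _ c0.ne'] at this
    simp only [sub_re, re_ofReal_mul, map_add, ← add_assoc, map_smul, A.apply_symm_apply]
    linarith

lemma loc {φ : V → ℝ} {p w : V} {U : Set V} (hU : U ∈ 𝓝 p) (hφ : ContDiffAt ℝ 2 φ p) (hw : 0 < Lv φ p w)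
    (h : ∀ x ∈ U, Sub φ x ∧ Deg φ x) : ∃ e : OpenPartialHomeomorph V V,
      e.source = ball 0 (1 / 2) ×ˢ ball 0 (1 / 40) ∧ p ∈ e.target ∧ e.target ⊆ U ∧
      (∀ t ∈ ball (0 : ℂ) (1 / 40), ∀ z ∈ ball (0 : ℂ) (1 / 2), (∃ d ≠ 0, HasDerivAt (fun z => e (z, t)) d z) ∧
        HarmonicAt (fun z => φ (e (z, t))) z) ∧
      ∀ f : ℂ → V, DifferentiableOn ℂ f (ball 0 1) → MapsTo f (ball 0 1) e.target →
        HarmonicOnNhd (fun z => φ (f z)) (ball 0 1) → ∀ z ∈ ball 0 1, (e.symm (f z)).2 = (e.symm (f 0)).2 := by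
  obtain ⟨ε, ε0, H⟩ := LT
  obtain ⟨A, c, c0, Q, f, D, dQ, e, m, d, l, D0⟩ := NM hU hφ hw ε0
  obtain ⟨g, hg, hl, hΦ⟩ := H _ f D e d l D0 fun x hx => tr A c0 dQ (h _ (m x hx))
  obtain ⟨E, s, hE, t0, t1, hh, hu⟩ := FB (u := fun x => φ (p + A x)) (g := g) ⟨hg, hl, fun a ha => by
    obtain ⟨n, Φ, k, k0, d, e, i⟩ := hΦ a ha
    refine ⟨n, fun x => (Φ x + Q x) / c, k / c, by positivity, fun x hx => ((d x hx).add (dQ x)).mul_const _,
      fun z hz => ?_, fun x hx => ?_⟩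
    · rw [div_ofReal_re, add_re, ← e z hz]; field_simp; ring
    · rw [div_ofReal_re, add_re, div_mul_eq_mul_div, ← add_div, div_le_iff₀ c0]
      linarith [i x hx]⟩
  let T : V ≃ₜ V := A.toHomeomorph.trans (.addLeft p)
  have hT (x : V) : T.symm x = A.symm (-p + x) := rfl
  have sb : ball (0 : ℂ) (1 / 2) ⊆ ball 0 1 := ball_subset_ball (by norm_num)
  refine ⟨E.transHomeomorph T, s, show T.symm p ∈ E.target by simpa [hT], fun x hx => ?_,
    fun t ht z hz => ⟨⟨A (1, deriv (g t) z), by simp, ?_⟩, ?_⟩, fun f df m hf => hu (fun z => T.symm (f z))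
      (A.symm.differentiable.comp_differentiableOn (df.const_add _)) m (by simpa [hT])⟩
  · simpa [hT] using m _ (t1 (show T.symm x ∈ E.target from hx))
  · exact (((A : V →L[ℂ] V).hasFDerivAt.comp_hasDerivAt z ((hasDerivAt_id z).prodMk
      ((hg t).1.differentiableAt isOpen_ball (sb hz)).hasDerivAt)).const_add p).congr_of_eventuallyEq
      (.of_forall fun z => congrArg T (hE (z, t)))
  · exact (harmonicAt_congr_nhds (.of_forall fun z => congrArg (fun x => φ (T x)) (hE (z, t)))).2 (hh t ht z (sb hz))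

lemma bump {φ : V → ℝ} {p : V} {Ω : Set V} (hΩ : IsOpen Ω) (hp : p ∈ Ω) (hφ : ContDiffOn ℝ 2 φ Ω)
    (h0 : ∀ x ∈ Ω, ∀ w, 0 ≤ Lv φ x w) (h : ∀ w ≠ 0, 0 < Lv φ p w) : ∃ ψ : V → ℝ, ContinuousOn ψ Ω ∧ (∀ x ∈ Ω, Sub ψ x) ∧
      φ p < ψ p ∧ ∃ K, IsCompact K ∧ K ⊆ Ω ∧ ∀ x ∈ Ω \ K, ψ x ≤ φ x := by
  have ca (x) (hx : x ∈ Ω) := hφ.contDiffAt (hΩ.mem_nhds hx)
  obtain ⟨η, η0, hη⟩ := (Metric.eventually_nhds_iff (α := V →L[ℝ] V →L[ℝ] ℝ)).1
    ((isCompact_sphere (0 : V) 1).eventually_forall_of_forall_eventually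
    (x₀ := fderiv ℝ (fderiv ℝ φ) p) (P := fun B w => 0 < B w w + B (I • w) (I • w)) fun w hw =>
      (Continuous.tendsto' (f := fun z : (V →L[ℝ] V →L[ℝ] ℝ) × V => z.1 z.2 z.2 + z.1 (I • z.2) (I • z.2))
        (by fun_prop) _ _ rfl).eventually_const_lt (h w (by rintro rfl; simp at hw)))
  obtain ⟨r, r0, hr⟩ := nhds_basis_closedBall.eventually_iff.1 (((Metric.tendsto_nhds (α := V →L[ℝ] V →L[ℝ] ℝ)).1
    (((ca p hp).fderiv_right (m := 1) (by norm_num)).fderiv_right (m := 0) (by norm_num)).continuousAt _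
    (half_pos η0)).and (hΩ.mem_nhds hp))
  let χ : ContDiffBump p := ⟨r / 2, r, by positivity, by linarith⟩
  obtain ⟨C, hC⟩ := ((χ.contDiff (n := 2)).fderiv_right (m := 1) (by norm_num)).continuous_fderiv
    one_ne_zero |>.bounded_above_of_compact_support ((χ.hasCompactSupport.fderiv ℝ).fderiv ℝ)
  have C0 := (norm_nonneg _).trans (hC 0)
  obtain ⟨ε, ε0, hε⟩ : ∃ ε > (0 : ℝ), ε * (C + 1) = η / 2 := ⟨_, by positivity, div_mul_cancel₀ _ (by positivity)⟩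
  refine ⟨fun x => φ x + ε * χ x, hφ.continuousOn.add (χ.continuous.const_mul ε).continuousOn, fun x hx δ d0 => ?_,
    by simp [χ.one_of_mem_closedBall (mem_closedBall_self χ.rIn_pos.le), ε0], _, isCompact_closedBall p r,
    fun x hx => (hr hx).2, fun x hx => by simp [χ.zero_of_le_dist (not_le.1 hx.2).le]⟩
  have k (w : V) : 0 ≤ Lv φ x w + ε * Lv χ x w := by
    by_cases c : x ∈ closedBall p r
    · by_cases w0 : w = 0
      · simp [Lv, w0]
      have n := norm_pos_iff.2 w0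
      have := hη (y := fderiv ℝ (fderiv ℝ φ) x + ε • fderiv ℝ (fderiv ℝ χ) x) ((dist_triangle _
        (fderiv ℝ (fderiv ℝ φ) x) _).trans_lt (by
          have := ContinuousLinearMap.opNorm_smul_le ε (fderiv ℝ (fderiv ℝ χ) x)
          rw [Real.norm_of_nonneg ε0.le] at this
          have e : dist (fderiv ℝ (fderiv ℝ φ) x + ε • fderiv ℝ (fderiv ℝ χ) x) (fderiv ℝ (fderiv ℝ φ) x) =
            ‖ε • fderiv ℝ (fderiv ℝ χ) x‖ := 
            (dist_eq_norm (fderiv ℝ (fderiv ℝ φ) x + ε • fderiv ℝ (fderiv ℝ χ) x) _).trans (by congr 1; ext <;> simp)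
          nlinarith [(hr c).1, hC x])) (((‖w‖⁻¹ : ℝ) : ℂ) • w) (by simp [norm_smul, w0])
      have e : 0 < Lv φ x (((‖w‖⁻¹ : ℝ) : ℂ) • w) + ε * Lv χ x (((‖w‖⁻¹ : ℝ) : ℂ) • w) := by
        simp only [Lv, add_apply, smul_apply, smul_eq_mul] at this ⊢; linarith
      rw [Lvs, Lvs, mul_left_comm, ← mul_add] at e
      exact (pos_of_mul_pos_right e (sq_nonneg _)).le
    · have : fderiv ℝ (fderiv ℝ χ) x = 0 := image_eq_zero_of_notMem_tsupport fun k =>
        c (χ.tsupport_eq ▸ tsupport_fderiv_subset ℝ (tsupport_fderiv_subset ℝ k))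
      simpa [Lv, this] using h0 x hx w
  obtain ⟨P, d, e, a⟩ := LV (ca x hx)
  obtain ⟨Q, d', e', b⟩ := LV ((χ.contDiff (n := 2)).contDiffAt (x := x))
  refine ⟨fun y => P y + ε * Q y, by fun_prop, by simp [e, e'],
    ((a (δ / 2) (by positivity)).and (b (δ / 2 / ε) (by positivity))).mono fun y hy => ?_⟩
  have := mul_le_mul_of_nonneg_left (abs_le.1 hy.2).1 ε0.le
  rw [mul_neg, ← mul_assoc, mul_div_cancel₀ _ ε0.ne'] at this
  simp only [add_re, re_ofReal_mul]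
  linarith [(abs_le.1 hy.1).1, k y]

end Pool.Agent.H.MP_b3426d_an
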